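import Pool.Agent.Lib.MP_266831_co.TopDefs
import Pool.Agent.Lib.MP_c258d4_co.Cube

/-!
# The limit of `cr(Q_n) / 4 ^ n` exists

The definitions `TopDrawing`, `TopDrawing.crossings`, `crTop` of the statement are in
`Pool/Agent/Lib/MP_266831_co/TopDefs.lean`; the hypercube graph `hypercube n` (vertices `Fin n → Bool`,
adjacent when they differ in exactly one coordinate) is in `Pool/Agent/Lib/MP_c258d4_co/Cube.lean`.
-/

set_option autoImplicit false

namespace Pool.Agent.Results.MP_c258d4_co.LimitExists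

open Pool.Agent.Lib.MP_266831_co Pool.Agent.Lib.MP_c258d4_co
open Filter Topology

/-- The crossing number of every hypercube is finite, `2 cr(Q_{n+1}) ≤ 8 cr(Q_n) + n ^ 2 2 ^ n` for all
`n`, the sequence `cr(Q_n) / 4 ^ n` converges, and its limit is the infimum over all `n` of
`cr(Q_n) / 4 ^ n + (n ^ 2 + 2 n + 3) / 2 ^ (n + 2)`. -/
theorem result :
    (∀ n : ℕ, crTop (hypercube n) ≠ ⊤) ∧
    (∀ n : ℕ, 2 * crTop (hypercube (n + 1)) ≤
      8 * crTop (hypercube n) + ((n ^ 2 * 2 ^ n : ℕ) : ℕ∞)) ∧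
    ∃ L : ℝ,
      Tendsto (fun n : ℕ => ((crTop (hypercube n)).toNat : ℝ) / 4 ^ n) atTop (𝓝 L) ∧
      IsGLB (Set.range fun n : ℕ => ((crTop (hypercube n)).toNat : ℝ) / 4 ^ n +
        ((n : ℝ) ^ 2 + 2 * n + 3) / 2 ^ (n + 2)) L :=
  ⟨exists_limit.1, crTop_succ_le, exists_limit.2⟩

end Pool.Agent.Results.MP_c258d4_co.LimitExists
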