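import Pool.Agent.Lib.MP_266831_co.TopDefs
import Pool.Agent.Lib.MP_c258d4_co.Bound

/-!
# A new upper bound for the crossing number of the hypercube

The definitions `TopDrawing`, `TopDrawing.crossings`, `crTop` of the statement are in
`Pool/Agent/Lib/MP_266831_co/TopDefs.lean`; the hypercube graph `hypercube n` (vertices `Fin n → Bool`,
adjacent when they differ in exactly one coordinate) is in `Pool/Agent/Lib/MP_c258d4_co/Cube.lean`.
-/

set_option autoImplicit false

namespace Pool.Agent.Results.MP_c258d4_co.UpperBound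

open Pool.Agent.Lib.MP_266831_co Pool.Agent.Lib.MP_c258d4_co
open Filter Topology

/-- `cr(Q_7) ≤ 1736`, `cr(Q_8) ≤ 8096`, for every `n ≥ 9` the crossing number of `Q_n` is at most the
natural number `949/6144 * 4^n - (6 n^2 + 9 - (-1)^n)/48 * 2^n`, and the limit of `cr(Q_n) / 4^n` is at
most `949/6144`. -/
theorem result :
    crTop (hypercube 7) ≤ 1736 ∧ crTop (hypercube 8) ≤ 8096 ∧
    (∀ n : ℕ, 9 ≤ n → ∃ c : ℕ, crTop (hypercube n) ≤ c ∧
      (c : ℝ) = 949 / 6144 * 4 ^ n - (6 * n ^ 2 + 9 - (-1) ^ n) / 48 * 2 ^ n) ∧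
    ∃ L : ℝ,
      Tendsto (fun n : ℕ => ((crTop (hypercube n)).toNat : ℝ) / 4 ^ n) atTop (𝓝 L) ∧
      L ≤ 949 / 6144 :=
  ⟨crTop_seven, crTop_eight, exists_bound, exists_limit_le⟩

end Pool.Agent.Results.MP_c258d4_co.UpperBound
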